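import Mathlib

namespace Pool.Agent.Results.MP_c5ead3_nt.AlmostPerfect

open Finset ArithmeticFunction

/-- The deficient `k ≥ 1` with `k * n` non-deficient; `a(n)` is its least element. -/
def mult (n : ℕ) : Set ℕ :=
  {k | 1 ≤ k ∧ sigma 1 k < 2 * k ∧ 2 * (k * n) ≤ sigma 1 (k * n)}

theorem sub (a b : ℕ) : sigma 1 (a * b) ≤ sigma 1 a * sigma 1 b := by
  simp only [sigma_one_apply]
  rw [Nat.divisors_mul, Finset.mul_def, Finset.sum_mul_sum, ← Finset.sum_product']
  exact Finset.sum_image_le_of_nonneg (fun _ _ => Nat.zero_le _)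

theorem cop (a b : ℕ) (h : Nat.Coprime a b) : sigma 1 (a * b) = sigma 1 a * sigma 1 b :=
  isMultiplicative_sigma.map_mul_of_coprime h

theorem two (j : ℕ) : sigma 1 (2 ^ j) + 1 = 2 * 2 ^ j := by
  rw [sigma_one_apply_prime_pow Nat.prime_two]
  induction j with
  | zero => simp
  | succ j ih => rw [sum_range_succ, pow_succ]; omega

theorem ineq (a t n s : ℕ) (h1 : 1 ≤ a) (h2 : a ≤ t) (h3 : (a + 1) * n ≤ a * s)
    (h4 : t * s < (t + 1) * n) : False := by
  have e1 : t * ((a + 1) * n) ≤ t * (a * s) := Nat.mul_le_mul_left _ h3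
  have e2 : a * (t * s) < a * ((t + 1) * n) := Nat.mul_lt_mul_of_pos_left h4 h1
  have e3 : a * n ≤ t * n := Nat.mul_le_mul_right _ h2
  nlinarith

theorem six (m : ℕ) (hm : 0 < m) : 12 * m ≤ sigma 1 (6 * m) := by
  rw [sigma_one_apply]
  have hs : ({m, 2 * m, 3 * m, 6 * m} : Finset ℕ) ⊆ (6 * m).divisors := by
    intro x hx
    simp only [mem_insert, mem_singleton] at hx
    rw [Nat.mem_divisors]
    refine ⟨?_, by omega⟩
    rcases hx with rfl | rfl | rfl | rfl
    · exact ⟨6, by ring⟩
    · exact ⟨3, by ring⟩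
    · exact ⟨2, by ring⟩
    · exact dvd_rfl
  refine le_trans (le_of_eq ?_) (sum_le_sum_of_subset hs)
  rw [sum_insert (by simp; omega), sum_insert (by simp; omega), sum_insert (by simp; omega),
    sum_singleton]
  omega

theorem fwd (n : ℕ) (hn : 2 ≤ n) (k : ℕ) (hk : IsLeast (mult n) k) :
    k = 3 ∨ sigma 1 k + 1 = 2 * k := by
  obtain ⟨⟨k1, k2, k3⟩, hmin⟩ := hk
  rcases Nat.even_or_odd n with ⟨m, hm⟩ | hodd
  · have h3 : 3 ∈ mult n := by
      refine ⟨by omega, by decide, ?_⟩
      have := six m (by omega)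
      rw [show 3 * n = 6 * m by omega]; omega
    have := hmin h3
    interval_cases k
    · right; decide
    · right; decide
    · left; rfl
  · right
    have l1 : 2 ^ Nat.log 2 k ≤ k := Nat.pow_log_le_self 2 (by omega)
    have l2 : k < 2 ^ (Nat.log 2 k + 1) := Nat.lt_pow_succ_log_self (by omega) k
    generalize Nat.log 2 k = j at l1 l2
    have ht := two j
    rcases l1.eq_or_lt with h | h
    · rw [← h]; exact ht
    · by_contra hne
      have hnot : 2 ^ j ∉ mult n := fun h' => by have := hmin h'; omega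
      have hc : Nat.Coprime (2 ^ j) n :=
        Nat.Coprime.pow_left _ ((Nat.coprime_two_left).mpr hodd)
      have hpos : 0 < 2 ^ j := by positivity
      have h4 : sigma 1 (2 ^ j) * sigma 1 n < (sigma 1 (2 ^ j) + 1) * n := by
        rw [← cop _ _ hc, ht, mul_assoc]
        by_contra h5
        exact hnot ⟨hpos, by omega, by omega⟩
      obtain ⟨a, rfl⟩ : ∃ a, k = a + 1 := ⟨k - 1, by omega⟩
      have hs := sub (a + 1) n
      have h6 : sigma 1 (a + 1) * sigma 1 n ≤ (2 * a) * sigma 1 n :=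
        Nat.mul_le_mul_right _ (by omega)
      rw [pow_succ] at l2
      exact ineq a (sigma 1 (2 ^ j)) n (sigma 1 n) (by omega) (by omega) (by nlinarith) h4

/-- product of primes in `(P, N)` -/
def g (P N : ℕ) : ℕ := ∏ p ∈ (range N).filter (fun p => p.Prime ∧ P < p), p

theorem g_cop (P N k : ℕ) (hk : 0 < k) (h : k ≤ P ∨ (k.Prime ∧ N ≤ k)) :
    Nat.Coprime k (g P N) := by
  apply Nat.Coprime.prod_right
  intro p hp
  simp only [mem_filter, mem_range] at hp
  rcases h with h | h
  · exact ((Nat.Prime.coprime_iff_not_dvd hp.2.1).mpr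
      (fun hd => by have := Nat.le_of_dvd hk hd; omega)).symm
  · exact (Nat.coprime_primes h.1 hp.2.1).mpr (by omega)

theorem g_pos (P N : ℕ) : 0 < g P N :=
  prod_pos (fun p hp => (mem_filter.mp hp).2.1.pos)

theorem g_succ (P N : ℕ) : g P (N + 1) = if N.Prime ∧ P < N then N * g P N else g P N := by
  unfold g
  rw [range_add_one, filter_insert]
  split_ifs with h
  · rw [prod_insert (by simp)]
  · rfl

theorem sp (p : ℕ) (hp : p.Prime) : sigma 1 p = p + 1 := by
  rw [sigma_one_apply, hp.sum_divisors]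

theorem g_low (P N : ℕ) :
    (1 + ∑ i ∈ range N, (if i.Prime ∧ P < i then (1 : ℝ) / i else 0)) * g P N
      ≤ sigma 1 (g P N) := by
  induction N with
  | zero => simp [g]
  | succ N ih =>
    rw [g_succ, sum_range_succ]
    split_ifs with h
    · rw [cop _ _ (g_cop P N N h.1.pos (Or.inr ⟨h.1, le_rfl⟩)), sp N h.1]
      have h0 : 0 ≤ ∑ i ∈ range N, (if i.Prime ∧ P < i then (1 : ℝ) / i else 0) :=
        sum_nonneg (fun i _ => by split_ifs <;> positivity)
      generalize ∑ i ∈ range N, (if i.Prime ∧ P < i then (1 : ℝ) / i else 0) = S at *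
      have hN : (0 : ℝ) < N := by exact_mod_cast h.1.pos
      have hg : (0 : ℝ) < g P N := by exact_mod_cast g_pos P N
      push_cast
      have e : (1 + (S + 1 / N)) * ((N : ℝ) * g P N) = N * ((1 + S) * g P N) + g P N := by
        field_simp; ring
      rw [e]
      nlinarith [mul_nonneg h0 hg.le]
    · simpa using ih

theorem g_ex (P : ℕ) : ∃ N, 2 * g P N ≤ sigma 1 (g P N) := by
  by_contra hcon
  push Not at hcon
  apply not_summable_one_div_on_primes
  have hsum : Summable (fun i : ℕ => if i.Prime ∧ P < i then (1 : ℝ) / i else 0) := by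
    apply summable_of_sum_range_le (c := 1)
    · intro i; split_ifs <;> positivity
    · intro N
      have h1 := g_low P N
      have h2 : (sigma 1 (g P N) : ℝ) < 2 * g P N := by exact_mod_cast hcon N
      have hg : (0 : ℝ) < g P N := by exact_mod_cast g_pos P N
      nlinarith
  refine hsum.congr_atTop ?_
  filter_upwards [Filter.eventually_gt_atTop P] with i hi
  by_cases h : i.Prime <;> simp [Set.indicator, h, hi]

theorem build (a : ℕ) (ha : 1 ≤ a) : ∃ n, 0 < n ∧ (∀ k, 0 < k → k ≤ a + 2 → Nat.Coprime k n) ∧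
    (a + 2) * n ≤ (a + 1) * sigma 1 n ∧ a * sigma 1 n < (a + 1) * n := by
  classical
  set P := (a + 2) ^ 2 with hP
  have hex : ∃ N, (a + 2) * g P N ≤ (a + 1) * sigma 1 (g P N) := by
    obtain ⟨N, hN⟩ := g_ex P
    exact ⟨N, by nlinarith⟩
  have h1 := Nat.find_spec hex
  refine ⟨g P (Nat.find hex), g_pos _ _, fun k hk hka => g_cop _ _ k hk (Or.inl (by nlinarith)),
    h1, ?_⟩
  rcases hN : Nat.find hex with _ | N
  · simp [g]
  · have h2 := Nat.find_min hex (show N < Nat.find hex by omega)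
    rw [hN] at h1
    rw [g_succ] at h1 ⊢
    split_ifs at h1 ⊢ with h
    · rw [cop _ _ (g_cop P N N h.1.pos (Or.inr ⟨h.1, le_rfl⟩)), sp N h.1]
      push Not at h2
      have h3 := h.2
      have hg := g_pos P N
      generalize sigma 1 (g P N) = s at *
      generalize g P N = m at *
      have e1 : a * (N + 1) * ((a + 1) * s) ≤ a * (N + 1) * ((a + 2) * m) :=
        Nat.mul_le_mul_left _ h2.le
      have e2 : a * (N + 1) * (a + 2) < (a + 1) * (a + 1) * N := by nlinarith
      have e3 : a * (N + 1) * (a + 2) * m < (a + 1) * (a + 1) * N * m :=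
        Nat.mul_lt_mul_of_pos_right e2 hg
      have e4 : (a + 1) * (a * ((N + 1) * s)) < (a + 1) * ((a + 1) * (N * m)) := by nlinarith
      exact Nat.lt_of_mul_lt_mul_left e4
    · exact absurd h1 h2

theorem result :
    (∀ n, 2 ≤ n → ∀ k, IsLeast (mult n) k → k = 3 ∨ sigma 1 k + 1 = 2 * k) ∧
    ((∀ n, 2 ≤ n → ∀ k, IsLeast (mult n) k → k = 1 ∨ k = 3 ∨ ∃ j, k = 2 ^ j) ↔
      (∀ k, 1 ≤ k → sigma 1 k + 1 = 2 * k → ∃ j, k = 2 ^ j)) := by
  classical
  refine ⟨fwd, fun H k hk hs => ?_, fun H n hn k hk => ?_⟩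
  · by_contra hne
    push Not at hne
    have k1 : k ≠ 1 := hne 0
    have k2 : k ≠ 2 := hne 1
    have k3 : k ≠ 3 := by rintro rfl; revert hs; decide
    obtain ⟨n, hn0, hc, h1, h2⟩ := build (2 * k - 2) (by omega)
    have e1 : 2 * k - 2 + 2 = 2 * k := by omega
    have e2 : 2 * k - 2 + 1 = sigma 1 k := by omega
    have hkm : k ∈ mult n := by
      refine ⟨hk, by omega, ?_⟩
      rw [cop _ _ (hc k hk (by omega)), ← mul_assoc, ← e2, ← e1]; exact h1
    have hn2 : 2 ≤ n := by
      by_contra h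
      have : n = 1 := by omega
      subst this
      simp at h1
    have hex : ∃ m, m ∈ mult n := ⟨k, hkm⟩
    have hl : IsLeast (mult n) (Nat.find hex) := ⟨Nat.find_spec hex, fun m hm => Nat.find_min' hex hm⟩
    have hle : Nat.find hex ≤ k := hl.2 hkm
    have hm := hl.1.2.2
    have hsub := sub (Nat.find hex) n
    have hpow : ∀ j, Nat.find hex = 2 ^ j → False := by
      intro j hj
      rw [hj] at hm hsub hle
      have ht := two j
      have hpos : 0 < 2 ^ j := by positivity
      have := hne j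
      refine ineq (sigma 1 (2 ^ j)) (2 * k - 2) n (sigma 1 n) (by omega) (by omega) ?_ h2
      rw [ht, mul_assoc]; exact hm.trans hsub
    rcases H n hn2 _ hl with h | h | ⟨j, h⟩
    · exact hpow 0 h
    · rw [h] at hm hsub
      have h4 : sigma 1 3 = 4 := by decide
      rw [h4] at hsub
      exact ineq 2 (2 * k - 2) n (sigma 1 n) (by omega) (by omega) (by omega) h2
    · exact hpow j h
  · rcases fwd n hn k hk with h | h
    · exact Or.inr (Or.inl h)
    · exact Or.inr (Or.inr (H k hk.1.1 h))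

end Pool.Agent.Results.MP_c5ead3_nt.AlmostPerfect
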